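import Pool.Agent.Run7.h575.Rigid4

set_option autoImplicit false

/-!
# Maps with rapid returns

If, relative to the return time and to the growth of the first derivatives, the iterates of the map
return super-polynomially close to the identity in one integral direction, then the space of smooth
coboundaries is not closed, and the rotation vector is Liouville.
-/

open Run7.h575

namespace Pool.Agent.Results.MP_ef0847_an.RapidReturns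

/-- The Diophantine condition of the problem. -/
def Diophantine {d : ℕ} (α : Fin d → ℝ) : Prop :=
  ∃ C : ℝ, 0 < C ∧ ∃ τ : ℝ, 0 < τ ∧
    ∀ k : Fin d → ℤ, k ≠ 0 → ∀ m : ℤ,
      C / (∑ i, |(k i : ℝ)|) ^ τ ≤ |∑ i, (k i : ℝ) * α i - (m : ℝ)|

/-- `F` is a lift of the smooth torus diffeomorphism `f`, and `h` conjugates `f` to the translation
by the irrational vector `α`, as in the problem. -/
def Admissible {d : ℕ} (α : Fin d → ℝ) (F : (Fin d → ℝ) → (Fin d → ℝ))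
    (h : (Fin d → AddCircle (1 : ℝ)) ≃ₜ (Fin d → AddCircle (1 : ℝ))) : Prop :=
  (∀ k : Fin d → ℤ, k ≠ 0 → ∀ m : ℤ, ∑ i, (k i : ℝ) * α i ≠ (m : ℝ)) ∧
  ContDiff ℝ ((⊤ : ℕ∞) : WithTop ℕ∞) F ∧
  (∃ G : (Fin d → ℝ) → (Fin d → ℝ), ContDiff ℝ ((⊤ : ℕ∞) : WithTop ℕ∞) G ∧
    (∀ x, G (F x) = x) ∧ (∀ x, F (G x) = x)) ∧
  (∀ (x : Fin d → ℝ) (k : Fin d → ℤ),
    F (x + fun i => (k i : ℝ)) = F x + fun i => (k i : ℝ)) ∧
  (∀ x : Fin d → ℝ,
    h (fun i => ((F x i : ℝ) : AddCircle (1 : ℝ))) =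
      h (fun i => ((x i : ℝ) : AddCircle (1 : ℝ))) +
        (fun i => ((α i : ℝ) : AddCircle (1 : ℝ))))

/-- The space of smooth coboundaries is closed, as in the problem. -/
def CoboundariesClosed {d : ℕ} (F : (Fin d → ℝ) → (Fin d → ℝ)) : Prop :=
  ∀ (Ψ : ℕ → (Fin d → ℝ) → ℝ) (Φ : (Fin d → ℝ) → ℝ),
    (∀ n, ContDiff ℝ ((⊤ : ℕ∞) : WithTop ℕ∞) (Ψ n)) →
    (∀ n (x : Fin d → ℝ) (k : Fin d → ℤ), Ψ n (x + fun i => (k i : ℝ)) = Ψ n x) →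
    ContDiff ℝ ((⊤ : ℕ∞) : WithTop ℕ∞) Φ →
    (∀ (x : Fin d → ℝ) (k : Fin d → ℤ), Φ (x + fun i => (k i : ℝ)) = Φ x) →
    (∀ j : ℕ, ∀ ε : ℝ, 0 < ε → ∃ N : ℕ, ∀ n, N ≤ n → ∀ x : Fin d → ℝ,
      ‖iteratedFDeriv ℝ j (fun y => Ψ n (F y) - Ψ n y - Φ y) x‖ < ε) →
    ∃ Ψ₀ : (Fin d → ℝ) → ℝ,
      ContDiff ℝ ((⊤ : ℕ∞) : WithTop ℕ∞) Ψ₀ ∧
      (∀ (x : Fin d → ℝ) (k : Fin d → ℤ), Ψ₀ (x + fun i => (k i : ℝ)) = Ψ₀ x) ∧
      ∀ x, Φ x = Ψ₀ (F x) - Ψ₀ x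

/-- Rapid returns in the direction `k`: for every `M` there are a time `q ≥ 2`, an integer `p` and a
bound `L` for the first derivatives of the iterates up to time `q` with
`|k · (F^q x - x) - p| ≤ (q L)^(-M)` for all `x`. -/
def FastReturns {d : ℕ} (F : (Fin d → ℝ) → (Fin d → ℝ)) (k : Fin d → ℤ) : Prop :=
  ∀ M : ℕ, ∃ q : ℕ, 2 ≤ q ∧ ∃ p : ℤ, ∃ L : ℝ, (∀ n ≤ q, ∀ x, ‖fderiv ℝ F^[n] x‖ ≤ L) ∧
    ∀ x : Fin d → ℝ, |∑ i, (k i : ℝ) * (F^[q] x i - x i) - p| * (q * L) ^ M ≤ 1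

/-- Rapid returns in one direction exclude closed coboundaries and Diophantine rotation vectors.
They happen if the inverse conjugacy is Hölder, the first derivatives of the iterates grow at most
polynomially and `α` is simultaneously Liouville (for every `M` there is `q ≥ 2` such that
`q α` is within `q^(-M)` of an integer vector). -/
theorem result :
    ∀ (d : ℕ) (α : Fin d → ℝ) (F : (Fin d → ℝ) → (Fin d → ℝ))
      (h : (Fin d → AddCircle (1 : ℝ)) ≃ₜ (Fin d → AddCircle (1 : ℝ))), Admissible α F h →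
      (∀ k : Fin d → ℤ, k ≠ 0 → FastReturns F k →
        ¬ CoboundariesClosed F ∧ ¬ Diophantine α) ∧
      ((∃ κ C : ℝ, 0 < κ ∧ ∀ s t, dist (h.symm s) (h.symm t) ≤ C * dist s t ^ κ) →
        (∃ A C : ℝ, ∀ n : ℕ, 1 ≤ n → ∀ x, ‖fderiv ℝ F^[n] x‖ ≤ C * (n : ℝ) ^ A) →
        (∀ M : ℕ, ∃ q : ℕ, 2 ≤ q ∧ ∃ p : Fin d → ℤ, ∀ i,
          |(q : ℝ) * α i - p i| ≤ 1 / (q : ℝ) ^ M) →
        ∀ k : Fin d → ℤ, FastReturns F k) := by
  rintro d α F h ⟨hα, hF, ⟨G, hG, GF, -⟩, hper, hh⟩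
  refine ⟨fun k hk hR => ?_, ?_⟩
  · obtain ⟨D⟩ := exists_dat (α := α) hF.continuous h hh
    obtain ⟨C₀, hC₀, hdev⟩ := D.deviation
    exact ⟨not_closed_of_rigid D hα hF hG GF hper hk hR,
      fun hdio => rigid_contra hdev hk hR (D.dioph_rho hdio)⟩
  · rintro ⟨κ, C, hκ, hol⟩ ⟨A, C1, hgr⟩ hL k
    exact rigid_of_holder hF.continuous h hh hκ hol hgr hL k

end Pool.Agent.Results.MP_ef0847_an.RapidReturns
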