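import Pool.Agent.Run7.h575.Main1

set_option autoImplicit false

/-!
# Structure of the maps whose space of smooth coboundaries is closed

Setting of the problem: `F` is a lift of a smooth diffeomorphism `f` of the torus that is
topologically conjugate to an irrational translation by `α`.
-/

open Run7.h575

namespace Pool.Agent.Results.MP_ef0847_an.StableStructure

/-- The direction `k` is slow for `F`: for every order `s ≥ 1` the lower limit over `n` of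
`(1/n) sup_x ‖D^s (k · F^n)(x)‖` is zero. -/
def SlowDirection {d : ℕ} (F : (Fin d → ℝ) → (Fin d → ℝ)) (k : Fin d → ℤ) : Prop :=
  ∀ s : ℕ, 1 ≤ s → ∀ ε : ℝ, 0 < ε → ∀ N : ℕ, ∃ n, N ≤ n ∧ ∀ x : Fin d → ℝ,
    ‖iteratedFDeriv ℝ s (fun y => ∑ i, (k i : ℝ) * F^[n] y i) x‖ ≤ ε * n

/-- If the space of smooth coboundaries of `f` is closed, there is a smooth torus map `H` homotopic
to the identity that linearizes `f` in all slow directions, the rotation vector satisfies a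
Diophantine condition on the slow directions, and if all coordinate directions are slow then `α` is
Diophantine and `f` is smoothly conjugate to a translation. -/
theorem result :
    ∀ d : ℕ, 1 ≤ d → ∀ α : Fin d → ℝ,
      (∀ k : Fin d → ℤ, k ≠ 0 → ∀ m : ℤ, ∑ i, (k i : ℝ) * α i ≠ (m : ℝ)) →
      ∀ F G : (Fin d → ℝ) → (Fin d → ℝ),
        ContDiff ℝ ((⊤ : ℕ∞) : WithTop ℕ∞) F →
        ContDiff ℝ ((⊤ : ℕ∞) : WithTop ℕ∞) G →
        (∀ x, G (F x) = x) → (∀ x, F (G x) = x) →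
        (∀ (x : Fin d → ℝ) (k : Fin d → ℤ),
          F (x + fun i => (k i : ℝ)) = F x + fun i => (k i : ℝ)) →
        (∃ h : (Fin d → AddCircle (1 : ℝ)) ≃ₜ (Fin d → AddCircle (1 : ℝ)),
          ∀ x : Fin d → ℝ,
            h (fun i => ((F x i : ℝ) : AddCircle (1 : ℝ))) =
              h (fun i => ((x i : ℝ) : AddCircle (1 : ℝ))) +
                (fun i => ((α i : ℝ) : AddCircle (1 : ℝ)))) →
        (∀ (Ψ : ℕ → (Fin d → ℝ) → ℝ) (Φ : (Fin d → ℝ) → ℝ),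
            (∀ n, ContDiff ℝ ((⊤ : ℕ∞) : WithTop ℕ∞) (Ψ n)) →
            (∀ n (x : Fin d → ℝ) (k : Fin d → ℤ),
              Ψ n (x + fun i => (k i : ℝ)) = Ψ n x) →
            ContDiff ℝ ((⊤ : ℕ∞) : WithTop ℕ∞) Φ →
            (∀ (x : Fin d → ℝ) (k : Fin d → ℤ), Φ (x + fun i => (k i : ℝ)) = Φ x) →
            (∀ j : ℕ, ∀ ε : ℝ, 0 < ε → ∃ N : ℕ, ∀ n, N ≤ n → ∀ x : Fin d → ℝ,
              ‖iteratedFDeriv ℝ j (fun y => Ψ n (F y) - Ψ n y - Φ y) x‖ < ε) →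
            ∃ Ψ₀ : (Fin d → ℝ) → ℝ,
              ContDiff ℝ ((⊤ : ℕ∞) : WithTop ℕ∞) Ψ₀ ∧
              (∀ (x : Fin d → ℝ) (k : Fin d → ℤ), Ψ₀ (x + fun i => (k i : ℝ)) = Ψ₀ x) ∧
              ∀ x, Φ x = Ψ₀ (F x) - Ψ₀ x) →
        ∃ (ρ : Fin d → ℝ) (H : (Fin d → ℝ) → (Fin d → ℝ)),
          (∃ C : ℝ, ∀ (n : ℕ) (x : Fin d → ℝ) (i : Fin d), |F^[n] x i - x i - n * ρ i| ≤ C) ∧
          ContDiff ℝ ((⊤ : ℕ∞) : WithTop ℕ∞) H ∧
          (∀ (x : Fin d → ℝ) (k : Fin d → ℤ),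
            H (x + fun i => (k i : ℝ)) = H x + fun i => (k i : ℝ)) ∧
          (∀ k : Fin d → ℤ, SlowDirection F k → ∀ x : Fin d → ℝ,
            ∑ i, (k i : ℝ) * H (F x) i = ∑ i, (k i : ℝ) * H x i + ∑ i, (k i : ℝ) * ρ i) ∧
          (∃ C : ℝ, 0 < C ∧ ∃ τ : ℝ, 0 < τ ∧
            ∀ k : Fin d → ℤ, SlowDirection F k → k ≠ 0 → ∀ m : ℤ,
              C / (∑ i, |(k i : ℝ)|) ^ τ ≤ |∑ i, (k i : ℝ) * ρ i - (m : ℝ)|) ∧
          ((∀ i : Fin d, SlowDirection F (Pi.single i 1)) →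
            (∃ C : ℝ, 0 < C ∧ ∃ τ : ℝ, 0 < τ ∧
              ∀ k : Fin d → ℤ, k ≠ 0 → ∀ m : ℤ,
                C / (∑ i, |(k i : ℝ)|) ^ τ ≤ |∑ i, (k i : ℝ) * α i - (m : ℝ)|) ∧
            (∀ x, H (F x) = H x + ρ) ∧
            ∃ K : (Fin d → ℝ) → (Fin d → ℝ), ContDiff ℝ ((⊤ : ℕ∞) : WithTop ℕ∞) K ∧
              (∀ x, K (H x) = x) ∧ ∀ y, H (K y) = y) := by
  intro d _ α hα F G hF hG GF _ hper ⟨h, hh⟩ hc
  obtain ⟨D⟩ := exists_dat (α := α) hF.continuous h hh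
  obtain ⟨C₀, hC₀, hdev⟩ := D.deviation
  obtain ⟨H, h1, h2, h3, h4, h5⟩ := structure_thm D hα hF hG GF hper hc
  refine ⟨D.rho, H, ⟨C₀, fun n x i => ?_⟩, h1, h2, h3, h4, fun hs => ?_⟩
  · have := (norm_le_pi_norm (F^[n] x - x - (n : ℝ) • D.rho) i).trans (hdev n x)
    simpa using this
  · obtain ⟨g1, g2, g3, K, g4, g5, g6, g7⟩ := h5 hs
    exact ⟨g3, g1, K, g4, g6, g7⟩

end Pool.Agent.Results.MP_ef0847_an.StableStructure
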