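import Pool.Agent.Run7.h575.Tower3

set_option autoImplicit false

/-!
# The equivalence for towers of extensions over maps with slow growth

`Tower` (declared in `Pool.Agent.Run7.h575.Defs`) is the smallest class of torus maps that contains
the maps whose iterates have slowly growing derivatives, and that is closed under extensions by
translations of a circle and under smooth conjugacy.
-/

open Run7.h575

namespace Pool.Agent.Results.MP_ef0847_an.TowerEquivalence

/-- The Diophantine condition of the problem. -/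
def Diophantine {d : ℕ} (α : Fin d → ℝ) : Prop :=
  ∃ C : ℝ, 0 < C ∧ ∃ τ : ℝ, 0 < τ ∧
    ∀ k : Fin d → ℤ, k ≠ 0 → ∀ m : ℤ,
      C / (∑ i, |(k i : ℝ)|) ^ τ ≤ |∑ i, (k i : ℝ) * α i - (m : ℝ)|

/-- The hypotheses of the problem: `α` is irrational and `F` is a lift of a smooth diffeomorphism
of the torus that is topologically conjugate to the translation by `α`. -/
def Admissible {d : ℕ} (α : Fin d → ℝ) (F : (Fin d → ℝ) → (Fin d → ℝ)) : Prop :=
  (∀ k : Fin d → ℤ, k ≠ 0 → ∀ m : ℤ, ∑ i, (k i : ℝ) * α i ≠ (m : ℝ)) ∧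
  ContDiff ℝ ((⊤ : ℕ∞) : WithTop ℕ∞) F ∧
  (∃ G : (Fin d → ℝ) → (Fin d → ℝ), ContDiff ℝ ((⊤ : ℕ∞) : WithTop ℕ∞) G ∧
    (∀ x, G (F x) = x) ∧ (∀ x, F (G x) = x)) ∧
  (∀ (x : Fin d → ℝ) (k : Fin d → ℤ),
    F (x + fun i => (k i : ℝ)) = F x + fun i => (k i : ℝ)) ∧
  (∃ h : (Fin d → AddCircle (1 : ℝ)) ≃ₜ (Fin d → AddCircle (1 : ℝ)),
    ∀ x : Fin d → ℝ,
      h (fun i => ((F x i : ℝ) : AddCircle (1 : ℝ))) =
        h (fun i => ((x i : ℝ) : AddCircle (1 : ℝ))) +
          (fun i => ((α i : ℝ) : AddCircle (1 : ℝ))))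

/-- The space of smooth coboundaries is closed, as in the problem. -/
def CoboundariesClosed {d : ℕ} (F : (Fin d → ℝ) → (Fin d → ℝ)) : Prop :=
  ∀ (Ψ : ℕ → (Fin d → ℝ) → ℝ) (Φ : (Fin d → ℝ) → ℝ),
    (∀ n, ContDiff ℝ ((⊤ : ℕ∞) : WithTop ℕ∞) (Ψ n)) →
    (∀ n (x : Fin d → ℝ) (k : Fin d → ℤ), Ψ n (x + fun i => (k i : ℝ)) = Ψ n x) →
    ContDiff ℝ ((⊤ : ℕ∞) : WithTop ℕ∞) Φ →
    (∀ (x : Fin d → ℝ) (k : Fin d → ℤ), Φ (x + fun i => (k i : ℝ)) = Φ x) →
    (∀ j : ℕ, ∀ ε : ℝ, 0 < ε → ∃ N : ℕ, ∀ n, N ≤ n → ∀ x : Fin d → ℝ,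
      ‖iteratedFDeriv ℝ j (fun y => Ψ n (F y) - Ψ n y - Φ y) x‖ < ε) →
    ∃ Ψ₀ : (Fin d → ℝ) → ℝ,
      ContDiff ℝ ((⊤ : ℕ∞) : WithTop ℕ∞) Ψ₀ ∧
      (∀ (x : Fin d → ℝ) (k : Fin d → ℤ), Ψ₀ (x + fun i => (k i : ℝ)) = Ψ₀ x) ∧
      ∀ x, Φ x = Ψ₀ (F x) - Ψ₀ x

/-- Triangular maps, those for which `F x i - x i` depends only on the coordinates before `i`, are
towers. -/
theorem triangular (d : ℕ) : ∀ F : (Fin d → ℝ) → (Fin d → ℝ),
    (∀ (i : Fin d) (x y : Fin d → ℝ), (∀ j : Fin d, j < i → x j = y j) →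
      F x i - x i = F y i - y i) → Tower d F := by
  induction d with
  | zero =>
    intro F _
    refine Tower.base 0 F fun δ _ s₀ => ⟨s₀, le_rfl, 0, fun n _ x => ?_⟩
    have h : iteratedFDeriv ℝ s₀ F^[n] x = 0 := by
      ext v
      exact congrFun (Subsingleton.elim _ _) _
    rw [h, norm_zero, zero_mul]
  | succ d ih =>
    intro F hF
    refine Tower.ext d (fun u => pr d (F (up u 0))) (fun u => F (up u 0) (Fin.last d)) F
      (ih _ fun i x y hxy => ?_) (fun x i => ?_) (fun x => ?_)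
    · have h := hF i.castSucc (up x 0) (up y 0) (fun j hj => by
        refine Fin.lastCases (fun h => ?_) (fun j h => ?_) j hj
        · exact absurd h (not_lt.2 (Fin.le_last _))
        · rw [up_castSucc, up_castSucc]
          exact hxy j (by simpa using h))
      rw [up_castSucc, up_castSucc] at h
      exact h
    · have h := hF i.castSucc x (up (pr d x) 0) (fun j hj => by
        refine Fin.lastCases (fun h => ?_) (fun j _ => ?_) j hj
        · exact absurd h (not_lt.2 (Fin.le_last _))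
        · rw [up_castSucc]; rfl)
      rw [up_castSucc, pr_apply] at h
      have h' : F x i.castSucc = F (up (pr d x) 0) i.castSucc := by linarith
      exact h'
    · have h := hF (Fin.last d) x (up (pr d x) 0) (fun j hj => by
        refine Fin.lastCases (fun h => ?_) (fun j _ => ?_) j hj
        · exact absurd h (lt_irrefl _)
        · rw [up_castSucc]; rfl)
      rw [up_last] at h
      have h' : F x (Fin.last d) = x (Fin.last d) + F (up (pr d x) 0) (Fin.last d) := by linarith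
      exact h'

/-- For every tower `G` as in the problem, the coboundaries are closed if and only if `β` is
Diophantine; in that case the map is smoothly conjugate to a translation; otherwise the coboundaries
are not closed for any map `F` as in the problem that has `G` as a smooth factor. -/
theorem result :
    ∀ (m : ℕ) (β : Fin m → ℝ) (G : (Fin m → ℝ) → (Fin m → ℝ)), Admissible β G → Tower m G →
      (CoboundariesClosed G ↔ Diophantine β) ∧
      (Diophantine β → ∃ (ρ : Fin m → ℝ) (H K : (Fin m → ℝ) → (Fin m → ℝ)),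
        ContDiff ℝ ((⊤ : ℕ∞) : WithTop ℕ∞) H ∧ ContDiff ℝ ((⊤ : ℕ∞) : WithTop ℕ∞) K ∧
        (∀ (x : Fin m → ℝ) (k : Fin m → ℤ),
          H (x + fun i => (k i : ℝ)) = H x + fun i => (k i : ℝ)) ∧
        (∀ x, K (H x) = x) ∧ (∀ y, H (K y) = y) ∧ ∀ x, H (G x) = H x + ρ) ∧
      (∀ (d : ℕ) (α : Fin d → ℝ) (F : (Fin d → ℝ) → (Fin d → ℝ)), Admissible α F →
        CoboundariesClosed F → ∀ p : (Fin d → ℝ) → (Fin m → ℝ),
          ContDiff ℝ ((⊤ : ℕ∞) : WithTop ℕ∞) p →
          (∀ (x : Fin d → ℝ) (k : Fin d → ℤ), ∃ l : Fin m → ℤ,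
            p (x + fun i => (k i : ℝ)) = p x + fun i => (l i : ℝ)) →
          (∀ x, p (F x) = G (p x)) → Diophantine β) := by
  rintro m β G ⟨hβ, hG, ⟨G', hG', GF, -⟩, hper, h, hh⟩ hT
  obtain ⟨D⟩ := exists_dat (α := β) hG.continuous h hh
  obtain ⟨h1, h2⟩ := tower_equiv hT D hβ hG hG' GF hper
  refine ⟨h1, fun hdio => ?_, ?_⟩
  · obtain ⟨H, K, g1, g2, g3, g4, g5, g6, g7⟩ := h2 hdio
    exact ⟨D.rho, H, K, g1, g2, g3, g5, g6, g7⟩
  · rintro d α F ⟨hα, hF, -, -, h', hh'⟩ hc p hp ep hpF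
    obtain ⟨DF⟩ := exists_dat (α := α) hF.continuous h' hh'
    have hdet : ∀ x, (fderiv ℝ G x).det ≠ 0 :=
      det_ne_zero (hG.differentiable (by simp)) (hG'.differentiable (by simp)) GF
    exact D.dioph_alpha ((tower_main hT D hβ hG hper hdet).2 DF hα hF hc p hp ep hpF)

end Pool.Agent.Results.MP_ef0847_an.TowerEquivalence
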